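import Pool.Agent.H51.EI.TargetsB

/-!
# MP_58ae59_nt, board exi_modules, row ENT: the entries as inner products
-/

set_option autoImplicit false

open Polynomial Finset

namespace Pool.Agent.H68.EI.ENT

open Pool.Agent.H51.EI
open Pool.Agent.H25.EE (Idx Ix mlt nd s0 s1 hn EX exo)

variable {O : Subring ℂ} {X0 : ℂ}

private theorem ev_mul (P Q : (↥O)[X]) (x : ℂ) : ev (P * Q) x = ev P x * ev Q x := by
  simp [ev, toC]

private theorem ev_add (P Q : (↥O)[X]) (x : ℂ) : ev (P + Q) x = ev P x + ev Q x := by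
  simp [ev, toC]

private theorem ev_pow (P : (↥O)[X]) (n : ℕ) (x : ℂ) : ev (P ^ n) x = ev P x ^ n := by
  simp [ev, toC]

private theorem ev_C (c : O) (x : ℂ) : ev (C c) x = (c : ℂ) := by
  simp [ev, toC]

private theorem ev_X (x : ℂ) : ev (X : (↥O)[X]) x = x := by
  simp [ev, toC]

private theorem ev_sum {ι : Type} (s : Finset ι) (f : ι → (↥O)[X]) (x : ℂ) :
    ev (∑ l ∈ s, f l) x = ∑ l ∈ s, ev (f l) x := by
  simp [ev, toC, Polynomial.map_sum, eval_finsetSum]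

private theorem ev_Wp (π : Par O X0) (x : ℤ × ℤ) :
    ev (Wp π x) X0 = ev π.B X0 * om π x := by
  unfold Wp om
  rw [ev_add, ev_mul, ev_mul, ev_C, ev_C, mul_div_cancel₀ _ π.hB]
  push_cast
  rfl

private theorem ev_Zp (π : Par O X0) (x : ℤ × ℤ) :
    ev (Zp π x) X0 = ev π.A X0 * ze π x := by
  unfold Zp ze
  rw [ev_add, ev_mul, ev_mul, ev_C, ev_C, mul_div_cancel₀ _ π.hA]
  push_cast
  rfl

private theorem ev_PP (π : Par O X0) (a b : Idx) :
    ev (PP π a b) X0 = ev π.A X0 ^ a.2 * ev π.B X0 ^ b.2 *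
      ∑ l ∈ range (min a.2 b.2 + 1),
        ((l.factorial * a.2.choose l * b.2.choose l : ℕ) : ℂ) * ze π b.1 ^ (a.2 - l) *
          om π a.1 ^ (b.2 - l) := by
  unfold PP
  rw [ev_sum, mul_sum]
  refine sum_congr rfl fun l hl => ?_
  rw [mem_range] at hl
  have h1 : l ≤ a.2 := by omega
  have h2 : l ≤ b.2 := by omega
  rw [ev_mul, ev_mul, ev_mul, ev_pow, ev_pow, ev_pow, ev_mul, ev_C,
    ev_Wp π _, ev_Zp π _, mul_pow, mul_pow, mul_pow]
  have e1 : ev π.A X0 ^ a.2 = ev π.A X0 ^ (a.2 - l) * ev π.A X0 ^ l := by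
    rw [← pow_add]
    congr 1
    omega
  have e2 : ev π.B X0 ^ b.2 = ev π.B X0 ^ (b.2 - l) * ev π.B X0 ^ l := by
    rw [← pow_add]
    congr 1
    omega
  rw [e1, e2]
  push_cast
  ring

private theorem hn_nonneg (x : ℤ × ℤ) : 0 ≤ hn x := by
  unfold hn
  have h1 := sq_nonneg x.1
  have h2 := sq_nonneg x.2
  omega

private theorem hn_ge (x : ℤ × ℤ) : x.1 ^ 2 + x.2 ^ 2 ≤ 2 * hn x := by
  unfold hn
  omega

private theorem EX_eq (a b : Idx) : ((EX a b : ℕ) : ℤ) =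
    (a.1.1 * b.1.1 + a.1.2 * b.1.2) + ((hn a.1).toNat + (hn b.1).toNat : ℤ) := by
  unfold EX
  have h1 := hn_ge a.1
  have h2 := hn_ge b.1
  have h3 := hn_nonneg a.1
  have h4 := hn_nonneg b.1
  have h5 : 0 ≤ a.1.1 * b.1.1 + a.1.2 * b.1.2 + hn a.1 + hn b.1 := by
    nlinarith [sq_nonneg (a.1.1 + b.1.1), sq_nonneg (a.1.2 + b.1.2)]
  rw [Int.toNat_of_nonneg h5, Int.toNat_of_nonneg h3, Int.toNat_of_nonneg h4]
  ring

private theorem cst_one {u v : ℂ} (hu0 : u ≠ 0) (hv0 : v ≠ 0) (J : ℕ) (e : ℤ)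
    (h1 : -((J : ℤ) ^ 2) ≤ e) (h2 : e ≤ (J : ℤ) ^ 2) :
    u ^ ((J : ℤ) ^ 2 + e).toNat * v ^ ((J : ℤ) ^ 2 - e).toNat =
      (u * v) ^ (J ^ 2) * (u / v) ^ e := by
  rw [← zpow_natCast u, ← zpow_natCast v, Int.toNat_of_nonneg (by linarith),
    Int.toNat_of_nonneg (by linarith), zpow_add₀ hu0, zpow_sub₀ hv0, div_zpow, mul_pow]
  have e1 : u ^ ((J : ℤ) ^ 2) = u ^ (J ^ 2) := by
    rw [← zpow_natCast u (J ^ 2)]
    push_cast
    rfl
  have e2 : v ^ ((J : ℤ) ^ 2) = v ^ (J ^ 2) := by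
    rw [← zpow_natCast v (J ^ 2)]
    push_cast
    rfl
  rw [e1, e2]
  ring

private theorem exo_bound {J : ℕ} {a b : Idx} (ha : a.1 ∈ nd J) (hb : b.1 ∈ nd J) (i j : Fin 2) :
    -((J : ℤ) ^ 2) ≤ exo a b i j ∧ exo a b i j ≤ (J : ℤ) ^ 2 := by
  unfold nd at ha hb
  rw [mem_product, mem_Icc, mem_Icc] at ha hb
  obtain ⟨⟨a1, a2⟩, a3, a4⟩ := ha
  obtain ⟨⟨b1, b2⟩, b3, b4⟩ := hb
  have key : ∀ p q : ℤ, -(J : ℤ) ≤ p → p ≤ J → -(J : ℤ) ≤ q → q ≤ J →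
      -((J : ℤ) ^ 2) ≤ p * q ∧ p * q ≤ (J : ℤ) ^ 2 := by
    intro p q h1 h2 h3 h4
    constructor <;> nlinarith
  unfold exo
  fin_cases i <;> fin_cases j <;> exact key _ _ (by assumption) (by assumption) (by assumption)
    (by assumption)

private theorem exp_eq (π : Par O X0) (a b : Idx) :
    Complex.exp (om π a.1 * ze π b.1) =
      X0 ^ (a.1.1 * b.1.1 + a.1.2 * b.1.2) *
        ∏ i : Fin 2, ∏ j : Fin 2, ((π.u i j : ℂ) / (π.v i j : ℂ)) ^ exo a b i j := by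
  have hX := π.hX
  have hA := π.hA
  have hB := π.hB
  have e : om π a.1 * ze π b.1 =
      ((a.1.1 * b.1.1 : ℤ) : ℂ) * (ev (π.x 0) X0 * ev (π.y 0) X0 / (ev π.A X0 * ev π.B X0)) +
      ((a.1.1 * b.1.2 : ℤ) : ℂ) * (ev (π.x 0) X0 * ev (π.y 1) X0 / (ev π.A X0 * ev π.B X0)) +
      (((a.1.2 * b.1.1 : ℤ) : ℂ) * (ev (π.x 1) X0 * ev (π.y 0) X0 / (ev π.A X0 * ev π.B X0)) +
      ((a.1.2 * b.1.2 : ℤ) : ℂ) *
        (ev (π.x 1) X0 * ev (π.y 1) X0 / (ev π.A X0 * ev π.B X0))) := by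
    unfold om ze
    push_cast
    field_simp
  rw [e, Complex.exp_add, Complex.exp_add, Complex.exp_add, Complex.exp_int_mul,
    Complex.exp_int_mul, Complex.exp_int_mul, Complex.exp_int_mul, π.hval, π.hval, π.hval, π.hval]
  have e00 : (if (0 : Fin 2) = 0 then 1 else 0 : ℕ) = 1 := if_pos rfl
  have e01 : (if (0 : Fin 2) = 1 then 1 else 0 : ℕ) = 0 := if_neg (by decide)
  have e10 : (if (1 : Fin 2) = 0 then 1 else 0 : ℕ) = 0 := if_neg (by decide)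
  have e11 : (if (1 : Fin 2) = 1 then 1 else 0 : ℕ) = 1 := if_pos rfl
  rw [e00, e01, e10, e11, pow_one, pow_zero, one_mul, one_mul, mul_zpow, mul_zpow,
    zpow_add₀ hX]
  simp only [Fin.prod_univ_two, exo]
  simp only [Matrix.cons_val_zero, Matrix.cons_val_one, Fin.isValue]
  ring

private theorem keyC (π : Par O X0) (J : ℕ) (a b : Idx) (ha : a.1 ∈ nd J) (hb : b.1 ∈ nd J) :
    ((cst π J a b : O) : ℂ) * X0 ^ EX a b =
      X0 ^ (hn a.1).toNat * X0 ^ (hn b.1).toNat *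
        (∏ i : Fin 2, ∏ j : Fin 2, ((π.u i j : ℂ) * (π.v i j : ℂ)) ^ (J ^ 2)) *
        Complex.exp (om π a.1 * ze π b.1) := by
  have hX := π.hX
  have e1 : X0 ^ EX a b = X0 ^ (a.1.1 * b.1.1 + a.1.2 * b.1.2) *
      (X0 ^ (hn a.1).toNat * X0 ^ (hn b.1).toNat) := by
    rw [← zpow_natCast X0 (EX a b), EX_eq,
      zpow_add₀ hX (a.1.1 * b.1.1 + a.1.2 * b.1.2), zpow_add₀ hX ((hn a.1).toNat : ℤ),
      zpow_natCast, zpow_natCast]
  have e2 : ((cst π J a b : O) : ℂ) =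
      (∏ i : Fin 2, ∏ j : Fin 2, ((π.u i j : ℂ) * (π.v i j : ℂ)) ^ (J ^ 2)) *
        ∏ i : Fin 2, ∏ j : Fin 2, ((π.u i j : ℂ) / (π.v i j : ℂ)) ^ exo a b i j := by
    unfold cst
    push_cast
    rw [← prod_mul_distrib]
    refine prod_congr rfl fun i _ => ?_
    rw [← prod_mul_distrib]
    refine prod_congr rfl fun j _ => ?_
    obtain ⟨h1, h2⟩ := exo_bound ha hb i j
    have hu0 : (π.u i j : ℂ) ≠ 0 := by
      intro h
      exact π.hu i j (Subtype.ext h)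
    have hv0 : (π.v i j : ℂ) ≠ 0 := by
      intro h
      exact π.hv i j (Subtype.ext h)
    exact cst_one hu0 hv0 J _ h1 h2
  rw [e1, e2, exp_eq π a b]
  ring

/-- Row ENT -/
theorem pf_ENT (hTAY : Pool.Agent.H25.EE.T_TAY) : T_ENT := by
  intro O X0 π J a b ha hb
  have ha1 : a.1 ∈ nd J := (mem_sigma.mp ha).1
  have hb1 : b.1 ∈ nd J := (mem_sigma.mp hb).1
  have h := (hTAY a.2 b.2 (om π a.1) (ze π b.1)).mul_left (ra π a * cb π J b)
  have e1 : ra π a * cb π J b * (Complex.exp (om π a.1 * ze π b.1) *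
      ∑ l ∈ range (min a.2 b.2 + 1),
        ((l.factorial * a.2.choose l * b.2.choose l : ℕ) : ℂ) * ze π b.1 ^ (a.2 - l) *
          om π a.1 ^ (b.2 - l)) = ev (mm π J a b) X0 := by
    unfold mm
    rw [ev_mul, ev_mul, ev_C, ev_pow, ev_X, ev_PP π a b]
    unfold ra cb
    have hk := keyC π J a b ha1 hb1
    linear_combination (-(ev π.A X0 ^ a.2 * ev π.B X0 ^ b.2 *
      ∑ l ∈ range (min a.2 b.2 + 1),
        ((l.factorial * a.2.choose l * b.2.choose l : ℕ) : ℂ) * ze π b.1 ^ (a.2 - l) *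
          om π a.1 ^ (b.2 - l))) * hk
  rw [e1] at h
  have e2 : (fun n => al π a n * be π J b n) = fun n : ℕ => ra π a * cb π J b *
      ((n.descFactorial a.2 : ℂ) * om π a.1 ^ (n - a.2) *
        ((n.descFactorial b.2 : ℂ) * ze π b.1 ^ (n - b.2)) / (n.factorial : ℂ)) := by
    funext n
    unfold al be
    ring
  rw [e2]
  exact h

end Pool.Agent.H68.EI.ENT
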